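import Pool.Agent.Q207.HM.LvS

set_option autoImplicit false

open Matrix

namespace Q280.LV

open Q207.HM Q207.HM.Lv
open Pool.Agent.Y119.HY (Am Bm cm cm_apply)

theorem prod_neg_coeff {n : ℕ} (α : Fin n → ℚ) (j : ℕ) :
    (∏ i, (Polynomial.X - Polynomial.C (((α i : ℚ) : ℂ)))).coeff j =
      (-1) ^ n * ((-1) ^ j * (((∏ i, (Polynomial.X + Polynomial.C (α i))).coeff j : ℚ) : ℂ)) := by
  have h1 : (∏ i, (Polynomial.X - Polynomial.C (((α i : ℚ) : ℂ)))) =
      Polynomial.C ((-1) ^ n) * ((∏ i, (Polynomial.X + Polynomial.C (α i))).map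
        (algebraMap ℚ ℂ)).comp (-Polynomial.X) := by
    rw [Polynomial.map_prod, Polynomial.prod_comp]
    have h2 : (Polynomial.C ((-1 : ℂ) ^ n)) = ∏ _i : Fin n, Polynomial.C (-1 : ℂ) := by
      rw [Finset.prod_const, Finset.card_univ, Fintype.card_fin, Polynomial.C_pow]
    rw [h2, ← Finset.prod_mul_distrib]
    refine Finset.prod_congr rfl fun i _ => ?_
    simp only [Polynomial.map_add, Polynomial.map_X, Polynomial.map_C, Polynomial.add_comp,
      Polynomial.X_comp, Polynomial.C_comp, eq_ratCast, map_neg, map_one]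
    ring
  have h3 : (-Polynomial.X : Polynomial ℂ) = Polynomial.C (-1) * Polynomial.X := by simp
  rw [h1, Polynomial.coeff_C_mul, h3, Polynomial.comp_C_mul_X_coeff, Polynomial.coeff_map,
    mul_comm _ ((-1 : ℂ) ^ j)]
  rfl

theorem comp : S_Comp := by
  intro n α hn
  obtain ⟨m, rfl⟩ : ∃ m, n = m + 1 := ⟨n - 1, by omega⟩
  set Q : Polynomial ℚ := ∏ i, (Polynomial.X + Polynomial.C (α i)) with hQ
  set N : Matrix (Fin (m + 1)) (Fin (m + 1)) ℂ := cm (Bm (m + 1) Q) - cm (Am (m + 1)) with hN
  have hNe : ∀ i j : Fin (m + 1), N i j = (if (i : ℕ) + 1 = m + 1 then ((Q.coeff j : ℚ) : ℂ) else 0) -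
      (if (j : ℕ) = i + 1 then 1 else 0) := by
    intro i j
    rw [hN, Matrix.sub_apply, cm_apply, cm_apply]
    unfold Bm Am
    rw [Matrix.of_apply, Matrix.of_apply]
    congr 1
    · split_ifs <;> simp
    · split_ifs <;> simp
  have hpow : ∀ i : ℕ, i ≤ m → ∀ j : Fin (m + 1), (N ^ i) 0 j = if (j : ℕ) = i then (-1) ^ i else 0 := by
    intro i
    induction i with
    | zero =>
      intro _ j
      rw [pow_zero, Matrix.one_apply, pow_zero]
      congr 1
      rw [eq_iff_iff, Fin.ext_iff]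
      exact eq_comm
    | succ i ih =>
      intro hi j
      rw [pow_succ, Matrix.mul_apply, Finset.sum_eq_single (⟨i, by omega⟩ : Fin (m + 1))]
      · rw [ih (by omega), if_pos rfl, hNe, if_neg (by simp; omega)]
        simp only
        split_ifs with h
        · rw [pow_succ]; ring
        · ring
      · intro l _ hl
        rw [ih (by omega), if_neg (fun h => hl (Fin.ext h)), zero_mul]
      · intro h; exact absurd (Finset.mem_univ _) h
  have htop : ∀ j : Fin (m + 1), (N ^ (m + 1)) 0 j = (-1) ^ m * ((Q.coeff j : ℚ) : ℂ) := by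
    intro j
    rw [pow_succ, Matrix.mul_apply, Finset.sum_eq_single (⟨m, by omega⟩ : Fin (m + 1))]
    · rw [hpow m le_rfl, if_pos rfl, hNe, if_pos rfl, if_neg (by simp; omega), sub_zero]
    · intro l _ hl
      rw [hpow m le_rfl, if_neg (fun h => hl (Fin.ext h)), zero_mul]
    · intro h; exact absurd (Finset.mem_univ _) h
  have hdeg : N.charpoly.natDegree = m + 1 := by
    rw [Matrix.charpoly_natDegree_eq_dim, Fintype.card_fin]
  have hmon := Matrix.charpoly_monic N
  have hlead : N.charpoly.coeff (m + 1) = 1 := by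
    have := hmon.coeff_natDegree
    rwa [hdeg] at this
  have hCH : ∑ i ∈ Finset.range (m + 1 + 1), N.charpoly.coeff i • N ^ i = 0 := by
    have := Matrix.aeval_self_charpoly N
    rwa [Polynomial.aeval_eq_sum_range, hdeg] at this
  have hco : ∀ j : Fin (m + 1), N.charpoly.coeff j =
      (-1) ^ (m + 1) * ((-1) ^ (j : ℕ) * ((Q.coeff j : ℚ) : ℂ)) := by
    intro j
    have h1 := congrFun (congrFun hCH 0) j
    rw [Matrix.sum_apply, Finset.sum_range_succ] at h1
    simp only [Matrix.smul_apply, Matrix.zero_apply, smul_eq_mul] at h1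
    rw [htop, hlead, Finset.sum_eq_single (j : ℕ)] at h1
    · rw [hpow j (by have := j.2; omega), if_pos rfl] at h1
      have h2 : ((-1 : ℂ) ^ (j : ℕ)) * (-1) ^ (j : ℕ) = 1 := by
        rw [← mul_pow]; simp
      have h3 : N.charpoly.coeff j = (N.charpoly.coeff j * (-1) ^ (j : ℕ)) * (-1) ^ (j : ℕ) := by
        rw [mul_assoc, h2, mul_one]
      rw [h3]
      have h4 : N.charpoly.coeff (j : ℕ) * (-1) ^ (j : ℕ) = -((-1) ^ m * ((Q.coeff j : ℚ) : ℂ)) := by
        linear_combination h1
      rw [h4, pow_succ]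
      ring
    · intro i hi hij
      rw [hpow i (by have := Finset.mem_range.1 hi; omega), if_neg (fun h => hij h.symm), mul_zero]
    · intro h
      exact absurd (Finset.mem_range.2 j.2) h
  have hPmon : (∏ i : Fin (m + 1), (Polynomial.X - Polynomial.C (((α i : ℚ) : ℂ)))).Monic :=
    Polynomial.monic_prod_of_monic _ _ fun i _ => Polynomial.monic_X_sub_C _
  have hPdeg : (∏ i : Fin (m + 1), (Polynomial.X - Polynomial.C (((α i : ℚ) : ℂ)))).natDegree = m + 1 := by
    rw [Polynomial.natDegree_prod_of_monic _ _ fun i _ => Polynomial.monic_X_sub_C _]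
    simp
  ext j
  rcases lt_trichotomy j (m + 1) with hj | hj | hj
  · rw [prod_neg_coeff, ← hco ⟨j, hj⟩]
  · rw [hj, hlead]
    have := hPmon.coeff_natDegree
    rw [hPdeg] at this
    exact this.symm
  · rw [Polynomial.coeff_eq_zero_of_natDegree_lt (by omega),
      Polynomial.coeff_eq_zero_of_natDegree_lt (by omega)]

end Q280.LV
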