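import Pool.Agent.Q207.HM.LvS

set_option autoImplicit false

open Matrix

namespace Q280.LV

open Q207.HM Q207.HM.Lv

section

attribute [local instance] Matrix.linftyOpNormedAddCommGroup Matrix.linftyOpNormedRing
  Matrix.linftyOpNormedAlgebra

variable {n : ℕ}

/-- the map `Y ↦ (k+1) Y + (Y N - N Y)` -/
noncomputable def Dk (N : Matrix (Fin n) (Fin n) ℂ) (k : ℕ) :
    Matrix (Fin n) (Fin n) ℂ →ₗ[ℂ] Matrix (Fin n) (Fin n) ℂ where
  toFun Y := ((k : ℂ) + 1) • Y + (Y * N - N * Y)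
  map_add' X Y := by
    rw [smul_add, add_mul, mul_add]
    abel
  map_smul' c Y := by
    simp only [smul_mul_assoc, mul_smul_comm, RingHom.id_apply, smul_add, smul_sub]
    rw [smul_comm]

theorem Dk_apply (N : Matrix (Fin n) (Fin n) ℂ) (k : ℕ) (Y : Matrix (Fin n) (Fin n) ℂ) :
    Dk N k Y = ((k : ℂ) + 1) • Y + (Y * N - N * Y) := rfl

theorem big_bound (N Y : Matrix (Fin n) (Fin n) ℂ) (k : ℕ) (hk : 4 * ‖N‖ ≤ (k : ℝ) + 1) :
    ‖Y‖ ≤ 2 / ((k : ℝ) + 1) * ‖Dk N k Y‖ := by
  have hk0 : (0:ℝ) < (k : ℝ) + 1 := by positivity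
  have h1 : ((k : ℂ) + 1) • Y = Dk N k Y - (Y * N - N * Y) := by rw [Dk_apply]; abel
  have h2 : ‖((k : ℂ) + 1) • Y‖ = ((k : ℝ) + 1) * ‖Y‖ := by
    rw [norm_smul]
    congr 1
    have : ((k : ℂ) + 1) = (((k : ℝ) + 1 : ℝ) : ℂ) := by push_cast; rfl
    rw [this, Complex.norm_real, Real.norm_of_nonneg hk0.le]
  have h3 : ‖Y * N - N * Y‖ ≤ 2 * ‖N‖ * ‖Y‖ := by
    refine (norm_sub_le _ _).trans ?_
    have e1 := norm_mul_le Y N
    have e2 := norm_mul_le N Y
    nlinarith
  have h4 : ((k : ℝ) + 1) * ‖Y‖ ≤ ‖Dk N k Y‖ + 2 * ‖N‖ * ‖Y‖ := by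
    rw [← h2, h1]
    exact (norm_sub_le _ _).trans (by linarith)
  have h5 : 0 ≤ ‖Y‖ := norm_nonneg _
  rw [div_mul_eq_mul_div, le_div_iff₀ hk0]
  nlinarith

theorem lin_bound (f : Matrix (Fin n) (Fin n) ℂ →ₗ[ℂ] Matrix (Fin n) (Fin n) ℂ)
    (Y : Matrix (Fin n) (Fin n) ℂ) :
    ‖f Y‖ ≤ (∑ i, ∑ j, ‖f (Matrix.single i j 1)‖) * ‖Y‖ := by
  have h1 : Y = ∑ i, ∑ j, Y i j • Matrix.single i j (1:ℂ) := by
    conv_lhs => rw [Matrix.matrix_eq_sum_single Y]
    refine Finset.sum_congr rfl fun i _ => Finset.sum_congr rfl fun j _ => ?_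
    rw [Matrix.smul_single, smul_eq_mul, mul_one]
  have h2 : f Y = ∑ i, ∑ j, Y i j • f (Matrix.single i j (1:ℂ)) := by
    conv_lhs => rw [h1]
    simp only [map_sum, map_smul]
  rw [h2, Finset.sum_mul]
  refine (norm_sum_le _ _).trans (Finset.sum_le_sum fun i _ => ?_)
  rw [Finset.sum_mul]
  refine (norm_sum_le _ _).trans (Finset.sum_le_sum fun j _ => ?_)
  rw [norm_smul, mul_comm]
  exact mul_le_mul_of_nonneg_left (Pool.Agent.Y119.HY.entry_le Y i j) (norm_nonneg _)

theorem nr_main (N : Matrix (Fin n) (Fin n) ℂ)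
    (h : ∀ (k : ℕ) (Y : Matrix (Fin n) (Fin n) ℂ), ((k : ℂ) + 1) • Y + (Y * N - N * Y) = 0 → Y = 0) :
    NR N := by
  have hinj : ∀ k, Function.Injective (Dk N k) := by
    intro k
    rw [← LinearMap.ker_eq_bot, LinearMap.ker_eq_bot']
    exact h k
  let e : ∀ k : ℕ, Matrix (Fin n) (Fin n) ℂ ≃ₗ[ℂ] Matrix (Fin n) (Fin n) ℂ :=
    fun k => LinearEquiv.ofInjectiveEndo (Dk N k) (hinj k)
  have he : ∀ k Y, e k Y = Dk N k Y := fun k Y => rfl
  let c : ℕ → ℝ := fun k => (∑ i, ∑ j, ‖(e k).symm (Matrix.single i j 1)‖) * ((k : ℝ) + 1)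
  have hc0 : ∀ k, 0 ≤ c k := fun k => mul_nonneg
    (Finset.sum_nonneg fun i _ => Finset.sum_nonneg fun j _ => norm_nonneg _) (by positivity)
  have hc : ∀ k Y, ‖(e k).symm Y‖ ≤ c k / ((k : ℝ) + 1) * ‖Y‖ := by
    intro k Y
    have hk0 : (0:ℝ) < (k : ℝ) + 1 := by positivity
    have e1 : c k / ((k : ℝ) + 1) = ∑ i, ∑ j, ‖(e k).symm (Matrix.single i j 1)‖ := by
      simp only [c]
      field_simp
    rw [e1]
    exact lin_bound ((e k).symm : Matrix (Fin n) (Fin n) ℂ →ₗ[ℂ] Matrix (Fin n) (Fin n) ℂ) Y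
  set m : ℕ := ⌈4 * ‖N‖⌉₊ with hm
  refine ⟨2 + ∑ k ∈ Finset.range m, c k, fun k Y => (e k).symm Y, ?_, fun k Y => ?_, fun k Y => ?_,
    fun k Y => ?_⟩
  · have := Finset.sum_nonneg fun k (_ : k ∈ Finset.range m) => hc0 k
    linarith
  · have := (e k).apply_symm_apply Y
    rw [he, Dk_apply] at this
    exact this
  · have := (e k).symm_apply_apply Y
    rw [he, Dk_apply] at this
    exact this
  · have hk0 : (0:ℝ) < (k : ℝ) + 1 := by positivity
    have hsum : 0 ≤ ∑ k ∈ Finset.range m, c k := Finset.sum_nonneg fun k _ => hc0 k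
    by_cases hkm : k < m
    · have h1 : c k ≤ ∑ k ∈ Finset.range m, c k :=
        Finset.single_le_sum (fun i _ => hc0 i) (Finset.mem_range.2 hkm)
      refine (hc k Y).trans ?_
      apply mul_le_mul_of_nonneg_right _ (norm_nonneg _)
      apply div_le_div_of_nonneg_right _ hk0.le
      linarith
    · push Not at hkm
      have h1 : 4 * ‖N‖ ≤ (k : ℝ) + 1 := by
        have e1 := Nat.le_ceil (4 * ‖N‖)
        have e2 : ((m : ℕ) : ℝ) ≤ (k : ℝ) := by exact_mod_cast hkm
        rw [← hm] at e1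
        linarith
      have h2 := big_bound N ((e k).symm Y) k h1
      have h3 : Dk N k ((e k).symm Y) = Y := by
        rw [← he]
        exact (e k).apply_symm_apply Y
      rw [h3] at h2
      refine h2.trans ?_
      apply mul_le_mul_of_nonneg_right _ (norm_nonneg _)
      apply div_le_div_of_nonneg_right _ hk0.le
      linarith

end

theorem nr : S_NR := fun _ N h => nr_main N h

theorem res : S_Res := by
  intro n N a hN ha k Y hY
  set κ : ℂ := (k : ℂ) + 1 with hκ
  set M : Matrix (Fin n) (Fin n) ℂ := N + κ • 1 with hM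
  have h1 : N * Y = Y * M := by
    rw [hM, mul_add, mul_smul_comm, mul_one]
    have : N * Y = κ • Y + Y * N := by
      have e1 : κ • Y + (Y * N - N * Y) = 0 := hY
      have e2 : κ • Y + Y * N - N * Y = 0 := by rw [← e1]; abel
      exact (sub_eq_zero.1 e2).symm
    rw [this]
    abel
  have h2 : ∀ p : Polynomial ℂ, Polynomial.aeval N p * Y = Y * Polynomial.aeval M p := by
    intro p
    induction p using Polynomial.induction_on' with
    | add p q hp hq => rw [map_add, map_add, add_mul, mul_add, hp, hq]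
    | monomial i c =>
      have e1 : ∀ i : ℕ, N ^ i * Y = Y * M ^ i := by
        intro i
        induction i with
        | zero => simp
        | succ i ih => rw [pow_succ', mul_assoc, ih, ← mul_assoc, h1, mul_assoc, ← pow_succ']
      rw [Polynomial.aeval_monomial, Polynomial.aeval_monomial, mul_assoc, e1 i]
      rw [← mul_assoc, ← mul_assoc, Algebra.commutes]
  have h3 : Y * Polynomial.aeval M N.charpoly = 0 := by
    rw [← h2, Matrix.aeval_self_charpoly, zero_mul]
  have h4 : (Polynomial.aeval M N.charpoly).det ≠ 0 := by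
    rw [hN]
    have e1 : ∀ p : Polynomial ℂ, (Polynomial.aeval M p).det =
        ((Matrix.detMonoidHom (n := Fin n) (R := ℂ)).comp
          ((Polynomial.aeval M : Polynomial ℂ →ₐ[ℂ] Matrix (Fin n) (Fin n) ℂ) : Polynomial ℂ →*
            Matrix (Fin n) (Fin n) ℂ)) p := fun p => rfl
    rw [e1, map_prod]
    apply Finset.prod_ne_zero_iff.2
    intro i _
    rw [← e1, map_sub, Polynomial.aeval_X, Polynomial.aeval_C]
    have e2 : M - algebraMap ℂ (Matrix (Fin n) (Fin n) ℂ) (a i) =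
        -(Matrix.scalar (Fin n) (a i - κ) - N) := by
      rw [hM, Algebra.algebraMap_eq_smul_one]
      have : Matrix.scalar (Fin n) (a i - κ) = (a i - κ) • (1 : Matrix (Fin n) (Fin n) ℂ) := by
        rw [Matrix.scalar_apply, Matrix.smul_one_eq_diagonal]
      rw [this, sub_smul]
      abel
    rw [e2, Matrix.det_neg]
    have e3 : (Matrix.scalar (Fin n) (a i - κ) - N).det = Polynomial.eval (a i - κ) N.charpoly := by
      rw [Matrix.eval_charpoly]
    rw [e3, hN, Polynomial.eval_prod]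
    apply mul_ne_zero (pow_ne_zero _ (by norm_num))
    apply Finset.prod_ne_zero_iff.2
    intro j _
    rw [Polynomial.eval_sub, Polynomial.eval_X, Polynomial.eval_C]
    intro h0
    apply ha i j k
    rw [← hκ]
    linear_combination h0
  have h5 : IsUnit (Polynomial.aeval M N.charpoly).det := isUnit_iff_ne_zero.2 h4
  calc Y = Y * (Polynomial.aeval M N.charpoly) * (Polynomial.aeval M N.charpoly)⁻¹ := by
        rw [mul_assoc, Matrix.mul_nonsing_inv _ h5, mul_one]
    _ = 0 := by rw [h3, zero_mul]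

end Q280.LV
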